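import Pool.Agent.P.MP_28bf3c_nt.Main

set_option autoImplicit false
open MeasureTheory ProbabilityTheory Pool.Agent.P.MP_28bf3c_nt

theorem Pool.Agent.Results.MP_28bf3c_nt.Counter.result (d : ℕ) (hd : 3 ≤ d) :
    ∃ p : ℕ → unitInterval,
      (∀ c : ℝ, 0 < c → Summable fun s : ℕ => (s : ℝ) * Real.exp (-c * R d p s)) ∧
      ∀ᵐ ω ∂(Measure.infinitePi fun n : ℕ => bernoulliMeasure (1 : ℝ) 0 (p n)),
        ¬ NormalInBase 2 ((∑' n : ℕ, ω (n + 1) / 2 ^ (n + 1)) ^ d) :=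
  Pool.Agent.P.MP_28bf3c_nt.main d hd
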