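import Pool.Agent.P.MP_28bf3c_nt.Q.Sharp

set_option autoImplicit false
open MeasureTheory ProbabilityTheory Filter Pool.Agent.P.MP_28bf3c_nt

theorem Pool.Agent.Results.MP_28bf3c_nt.QuadraticConverse.result :
    ∃ C : ℝ, 0 < C ∧ ∀ g : ℕ → ℝ, Monotone g → (∀ s : ℕ, 0 ≤ g s) →
      (∀ᶠ s : ℕ in atTop, g s ≤ (s : ℝ) / C) →
      (¬ Summable fun s : ℕ => Real.exp (-C * g s) / (s : ℝ)) →
      ∃ p : ℕ → unitInterval, (∀ᶠ s : ℕ in atTop, g s ≤ R 2 p s) ∧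
        ∀ᵐ ω ∂(Measure.infinitePi fun n : ℕ => bernoulliMeasure (1 : ℝ) 0 (p n)),
          ¬ NormalInBase 2 ((∑' n : ℕ, ω (n + 1) / 2 ^ (n + 1)) ^ 2) :=
  ⟨27648, by norm_num, fun _ => Q.converse⟩

/-- the double logarithm instance -/
theorem Pool.Agent.Results.MP_28bf3c_nt.QuadraticConverse.loglog :
    ∃ κ : ℝ, 0 < κ ∧ ∃ p : ℕ → unitInterval,
      (∀ᶠ s : ℕ in atTop, κ * Real.log (Real.log (s : ℝ)) ≤ R 2 p s) ∧
      ∀ᵐ ω ∂(Measure.infinitePi fun n : ℕ => bernoulliMeasure (1 : ℝ) 0 (p n)),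
        ¬ NormalInBase 2 ((∑' n : ℕ, ω (n + 1) / 2 ^ (n + 1)) ^ 2) :=
  Q.converse_loglog
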