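import Pool.Agent.P.MP_28bf3c_nt.Q.Sharp

set_option autoImplicit false
open MeasureTheory ProbabilityTheory Filter Pool.Agent.P.MP_28bf3c_nt

theorem Pool.Agent.Results.MP_28bf3c_nt.QuadraticCriterion.result :
    ∃ c : ℝ, 0 < c ∧ ∀ p : ℕ → unitInterval,
      (Summable fun s : ℕ => Real.exp (-c * R 2 p s) / (s : ℝ)) →
      ∀ P : Polynomial ℝ, P.natDegree = 2 →
        ∀ᵐ ω ∂(Measure.infinitePi fun n : ℕ => bernoulliMeasure (1 : ℝ) 0 (p n)),
          ∀ b : ℕ, 2 ≤ b → NormalInBase b (P.eval (∑' n : ℕ, ω (n + 1) / 2 ^ (n + 1))) :=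
  ⟨1 / 2400, by norm_num, Q.pos⟩

/-- the posed case of degree two -/
theorem Pool.Agent.Results.MP_28bf3c_nt.QuadraticCriterion.posed :
    ∃ c : ℝ, 0 < c ∧ ∀ p : ℕ → unitInterval,
      (Summable fun s : ℕ => (s : ℝ) * Real.exp (-c * R 2 p s)) →
      ∀ P : Polynomial ℝ, P.natDegree = 2 →
        ∀ᵐ ω ∂(Measure.infinitePi fun n : ℕ => bernoulliMeasure (1 : ℝ) 0 (p n)),
          ∀ b : ℕ, 2 ≤ b → NormalInBase b (P.eval (∑' n : ℕ, ω (n + 1) / 2 ^ (n + 1))) := by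
  obtain ⟨c, hc, H⟩ := Pool.Agent.Results.MP_28bf3c_nt.QuadraticCriterion.result
  refine ⟨c, hc, fun p h => H p (Summable.of_nonneg_of_le (fun s => by positivity) (fun s => ?_) h)⟩
  rcases Nat.eq_zero_or_pos s with rfl | hs
  · simp
  · have : (1 : ℝ) ≤ s := by exact_mod_cast hs
    exact (div_le_self (Real.exp_pos _).le this).trans
      (le_mul_of_one_le_left (Real.exp_pos _).le this)

/-- the threshold for the digit variances -/
theorem Pool.Agent.Results.MP_28bf3c_nt.QuadraticCriterion.threshold (p : ℕ → unitInterval)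
    (h : ∀ᶠ n : ℕ in atTop,
      400 * √(Real.log (Real.log (n : ℝ)) / (n : ℝ)) ≤ (p n : ℝ) * (1 - (p n : ℝ))) :
    ∀ P : Polynomial ℝ, P.natDegree = 2 →
      ∀ᵐ ω ∂(Measure.infinitePi fun n : ℕ => bernoulliMeasure (1 : ℝ) 0 (p n)),
        ∀ b : ℕ, 2 ≤ b → NormalInBase b (P.eval (∑' n : ℕ, ω (n + 1) / 2 ^ (n + 1))) :=
  Q.pos p (Q.summable_of_loglog p (Q.loglog_of_v p h))
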